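import Pool.Agent.Helper32.FJL.Defs

set_option autoImplicit false

/-! FJL-9: straight-line programs. -/

namespace Pool.Agent.FJL

open Finset

theorem SLP.mono {I J : Type} [Fintype J] [Nonempty J] {t t' : ℕ} {A : I → J → ℝ}
    (h : SLP t A) (htt : t ≤ t') : SLP t' A := by
  obtain ⟨a, b, f, g, out, hfg, hout, hx⟩ := h
  obtain ⟨j₀⟩ := (inferInstance : Nonempty J)
  refine ⟨fun s => if s < t then a s else 0, fun s => if s < t then b s else 0,
    fun s => if s < t then f s else Sum.inl j₀, fun s => if s < t then g s else Sum.inl j₀,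
    out, ?_, ?_, ?_⟩
  · intro s hs
    by_cases hst : s < t
    · simpa [hst] using hfg s hst
    · simp [hst]
  · intro i n hn
    exact lt_of_lt_of_le (hout i n hn) htt
  · intro x
    obtain ⟨v, hv, hvo⟩ := hx x
    have key : ∀ p : J ⊕ ℕ, (∀ n, p = Sum.inr n → n < t) →
        Sum.elim x (fun s => if s < t then v s else 0) p = Sum.elim x v p := by
      intro p hp
      rcases p with j | n
      · rfl
      · simp [hp n rfl]
    refine ⟨fun s => if s < t then v s else 0, ?_, ?_⟩
    · intro s hs
      by_cases hst : s < t
      · simp only [hst, if_true]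
        rw [key (f s) (fun n hn => lt_trans ((hfg s hst).1 n hn) hst),
          key (g s) (fun n hn => lt_trans ((hfg s hst).2 n hn) hst)]
        exact hv s hst
      · simp [hst]
    · intro i
      rw [key (out i) (fun n hn => hout i n hn)]
      exact hvo i

theorem SLP.comp {I J K : Type} [Fintype I] [Fintype J] {t t' : ℕ} {A : I → J → ℝ}
    {B : K → I → ℝ} (hA : SLP t A) (hB : SLP t' B) :
    SLP (t + t') (fun k j => ∑ i, B k i * A i j) := by
  obtain ⟨a, b, f, g, out, hfg, hout, hx⟩ := hA
  obtain ⟨a', b', f', g', out', hfg', hout', hx'⟩ := hB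
  let tr : I ⊕ ℕ → J ⊕ ℕ := Sum.elim out (fun n => Sum.inr (t + n))
  have htr : ∀ (p : I ⊕ ℕ) (m : ℕ), (∀ n, p = Sum.inr n → n < m) →
      ∀ n, tr p = Sum.inr n → n < t + m := by
    intro p m hp n hn
    rcases p with i | k
    · exact lt_of_lt_of_le (hout i n hn) (Nat.le_add_right _ _)
    · have h1 : t + k = n := Sum.inr.inj hn
      have h2 := hp k rfl
      omega
  refine ⟨fun s => if s < t then a s else a' (s - t), fun s => if s < t then b s else b' (s - t),
    fun s => if s < t then f s else tr (f' (s - t)),
    fun s => if s < t then g s else tr (g' (s - t)), fun k => tr (out' k), ?_, ?_, ?_⟩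
  · intro s hs
    by_cases hst : s < t
    · simpa [hst] using hfg s hst
    · simp only [hst, if_false]
      have hs' : s - t < t' := by omega
      have h1 := hfg' (s - t) hs'
      refine ⟨fun n hn => ?_, fun n hn => ?_⟩
      · have := htr _ (s - t) h1.1 n hn
        omega
      · have := htr _ (s - t) h1.2 n hn
        omega
  · intro k n hn
    exact htr _ t' (hout' k) n hn
  · intro x
    obtain ⟨v, hv, hvo⟩ := hx x
    obtain ⟨v', hv', hvo'⟩ := hx' (fun i => ∑ j, A i j * x j)
    have key : ∀ p : J ⊕ ℕ, (∀ n, p = Sum.inr n → n < t) →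
        Sum.elim x (fun s => if s < t then v s else v' (s - t)) p = Sum.elim x v p := by
      intro p hp
      rcases p with j | n
      · rfl
      · simp [hp n rfl]
    have key' : ∀ p : I ⊕ ℕ,
        Sum.elim x (fun s => if s < t then v s else v' (s - t)) (tr p) =
          Sum.elim (fun i => ∑ j, A i j * x j) v' p := by
      intro p
      rcases p with i | n
      · have : tr (Sum.inl i) = out i := rfl
        rw [this, key (out i) (hout i), hvo i]
        rfl
      · have : tr (Sum.inr n) = Sum.inr (t + n) := rfl
        rw [this]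
        simp
    refine ⟨fun s => if s < t then v s else v' (s - t), ?_, ?_⟩
    · intro s hs
      by_cases hst : s < t
      · simp only [hst, if_true]
        rw [key (f s) (fun n hn => lt_trans ((hfg s hst).1 n hn) hst),
          key (g s) (fun n hn => lt_trans ((hfg s hst).2 n hn) hst)]
        exact hv s hst
      · simp only [hst, if_false]
        rw [key' (f' (s - t)), key' (g' (s - t))]
        exact hv' (s - t) (by omega)
    · intro k
      rw [key' (out' k), hvo' k]
      simp only [Finset.mul_sum, Finset.sum_mul]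
      rw [Finset.sum_comm]
      refine Finset.sum_congr rfl fun j _ => Finset.sum_congr rfl fun i _ => by ring

theorem SLP.reindex {I J I' J' : Type} [Fintype J] [Fintype J'] {t : ℕ} {A : I → J → ℝ}
    (hA : SLP t A) (e : I' ≃ I) (e' : J' ≃ J) : SLP t (fun i j => A (e i) (e' j)) := by
  obtain ⟨a, b, f, g, out, hfg, hout, hx⟩ := hA
  let tr : J ⊕ ℕ → J' ⊕ ℕ := Sum.map e'.symm id
  have htr : ∀ (p : J ⊕ ℕ) (n : ℕ), tr p = Sum.inr n → p = Sum.inr n := by
    intro p n hn
    rcases p with i | k
    · simp [tr] at hn
    · simpa [tr] using hn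
  refine ⟨a, b, fun s => tr (f s), fun s => tr (g s), fun i => tr (out (e i)), ?_, ?_, ?_⟩
  · intro s hs
    exact ⟨fun n hn => (hfg s hs).1 n (htr _ _ hn), fun n hn => (hfg s hs).2 n (htr _ _ hn)⟩
  · intro i n hn
    exact hout _ n (htr _ _ hn)
  · intro x
    obtain ⟨v, hv, hvo⟩ := hx (fun j => x (e'.symm j))
    have key : ∀ p : J ⊕ ℕ, Sum.elim x v (tr p) = Sum.elim (fun j => x (e'.symm j)) v p := by
      intro p
      rcases p with j | n <;> rfl
    refine ⟨v, ?_, ?_⟩
    · intro s hs
      rw [key, key]
      exact hv s hs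
    · intro i
      rw [key, hvo]
      rw [← e'.sum_comp]
      simp

/-- rows with at most `p` nonzero entries, at the columns `n i 0, …, n i (p-1)` -/
theorem SLP.sparse {I J : Type} [Fintype I] [DecidableEq I] [Fintype J] [DecidableEq J]
    (p : ℕ) (hp : 1 ≤ p) (n : I → Fin p → J) (c : I → Fin p → ℝ) :
    SLP (Fintype.card I * p) (fun i j => ∑ q, if n i q = j then c i q else 0) := by
  classical
  rcases isEmpty_or_nonempty I with hI | hI
  · refine ⟨fun _ => 0, fun _ => 0, fun _ => Sum.inr 0, fun _ => Sum.inr 0,
      fun i => (hI.false i).elim, ?_, fun i => (hI.false i).elim, ?_⟩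
    · intro s hs
      simp at hs
    · intro x
      refine ⟨fun _ => 0, ?_, fun i => (hI.false i).elim⟩
      intro s hs
      simp
  · obtain ⟨i₀⟩ := hI
    let e := Fintype.equivFin I
    let row : ℕ → I := fun s =>
      if h : s / p < Fintype.card I then e.symm ⟨s / p, h⟩ else i₀
    have hrow : ∀ (i : I) (q : ℕ), q < p → row ((e i : ℕ) * p + q) = i := by
      intro i q hq
      have h1 : ((e i : ℕ) * p + q) / p = (e i : ℕ) := by
        rw [Nat.add_comm, Nat.add_mul_div_right _ _ (by omega), Nat.div_eq_of_lt hq, Nat.zero_add]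
      have h2 : ((e i : ℕ) * p + q) / p < Fintype.card I := by rw [h1]; exact (e i).2
      simp only [row, h2, dif_pos]
      have : (⟨((e i : ℕ) * p + q) / p, h2⟩ : Fin (Fintype.card I)) = e i := Fin.ext h1
      rw [this, Equiv.symm_apply_apply]
    let n' : I → ℕ → J := fun i q => if h : q < p then n i ⟨q, h⟩ else n i ⟨0, by omega⟩
    let c' : I → ℕ → ℝ := fun i q => if h : q < p then c i ⟨q, h⟩ else 0
    refine ⟨fun s => if s % p = 0 then 0 else 1, fun s => c' (row s) (s % p),
      fun s => if s % p = 0 then Sum.inl (n' (row s) (s % p)) else Sum.inr (s - 1),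
      fun s => Sum.inl (n' (row s) (s % p)),
      fun i => Sum.inr ((e i : ℕ) * p + (p - 1)), ?_, ?_, ?_⟩
    · intro s hs
      refine ⟨fun m hm => ?_, fun m hm => ?_⟩
      · by_cases h0 : s % p = 0
        · simp [h0] at hm
        · simp only [h0, if_false] at hm
          have : s - 1 = m := Sum.inr.inj hm
          have : s ≠ 0 := by rintro rfl; simp at h0
          omega
      · simp at hm
    · intro i m hm
      have h1 : (e i : ℕ) * p + (p - 1) = m := Sum.inr.inj hm
      have h2 : (e i : ℕ) + 1 ≤ Fintype.card I := (e i).2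
      have h3 : ((e i : ℕ) + 1) * p ≤ Fintype.card I * p := Nat.mul_le_mul_right _ h2
      have h4 : ((e i : ℕ) + 1) * p = (e i : ℕ) * p + p := by ring
      omega
    · intro x
      refine ⟨fun s => ∑ q ∈ Finset.range (s % p + 1), c' (row s) q * x (n' (row s) q), ?_, ?_⟩
      · intro s hs
        by_cases h0 : s % p = 0
        · simp [h0]
        · simp only [h0, if_false, one_mul, Sum.elim_inr, Sum.elim_inl]
          have hs0 : s ≠ 0 := by rintro rfl; simp at h0
          have hlt : s % p < p := Nat.mod_lt _ (by omega)
          have hdm := Nat.div_add_mod s p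
          have e1 : s - 1 = (s % p - 1) + p * (s / p) := by omega
          have h1 : (s - 1) % p = s % p - 1 := by
            rw [e1, Nat.add_mul_mod_self_left, Nat.mod_eq_of_lt (by omega)]
          have h2 : (s - 1) / p = s / p := by
            rw [e1, Nat.add_mul_div_left _ _ (by omega), Nat.div_eq_of_lt (by omega), Nat.zero_add]
          have h3 : row (s - 1) = row s := by simp only [row, h2]
          rw [h1, h3, Finset.sum_range_succ]
          congr 2
          have : s % p - 1 + 1 = s % p := by omega
          rw [this]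
      · intro i
        have hp1 : p - 1 < p := by omega
        have h1 : ((e i : ℕ) * p + (p - 1)) % p = p - 1 := by
          rw [Nat.add_comm, Nat.add_mul_mod_self_right, Nat.mod_eq_of_lt hp1]
        simp only [Sum.elim_inr]
        rw [h1, hrow i (p - 1) hp1]
        have h2 : p - 1 + 1 = p := by omega
        rw [h2]
        have h3 : ∑ q ∈ Finset.range p, c' i q * x (n' i q) = ∑ q : Fin p, c i q * x (n i q) := by
          rw [← Fin.sum_univ_eq_sum_range (fun q => c' i q * x (n' i q)) p]
          refine Finset.sum_congr rfl fun q _ => ?_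
          simp [c', n']
        rw [h3]
        simp only [Finset.sum_mul]
        rw [Finset.sum_comm]
        refine Finset.sum_congr rfl fun q _ => ?_
        simp [ite_mul]

theorem exists_listing {J : Type} [DecidableEq J] [Nonempty J] (S : Finset J) :
    ∀ (p : ℕ), S.card ≤ p → ∀ (α : J → ℝ), (∀ j ∉ S, α j = 0) →
      ∃ (n : Fin p → J) (c : Fin p → ℝ), ∀ j, α j = ∑ q, if n q = j then c q else 0 := by
  classical
  obtain ⟨j₀⟩ := (inferInstance : Nonempty J)
  induction S using Finset.induction_on with
  | empty =>
    intro p _ α hα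
    refine ⟨fun _ => j₀, fun _ => 0, fun j => ?_⟩
    simp [hα j (by simp)]
  | insert a S ha ih =>
    intro p hp α hα
    rw [Finset.card_insert_of_notMem ha] at hp
    obtain ⟨p, rfl⟩ : ∃ p', p = p' + 1 := ⟨p - 1, by omega⟩
    obtain ⟨n, c, hnc⟩ := ih p (by omega) (Function.update α a 0) (by
      intro j hj
      by_cases hja : j = a
      · subst hja; simp
      · rw [Function.update_of_ne hja]
        exact hα j (by simp [hja, hj]))
    refine ⟨Fin.cons a n, Fin.cons (α a) c, fun j => ?_⟩
    rw [Fin.sum_univ_succ]
    simp only [Fin.cons_zero, Fin.cons_succ]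
    rw [← hnc j]
    by_cases hja : j = a
    · subst hja; simp
    · rw [Function.update_of_ne hja, if_neg (fun h => hja h.symm), zero_add]

/-- version with the support of each row given as a finset -/
theorem SLP.sparse' {I J : Type} [Fintype I] [DecidableEq I] [Fintype J] [DecidableEq J]
    [Nonempty J] (p : ℕ) (hp : 1 ≤ p) (A : I → J → ℝ) (S : I → Finset J)
    (hS : ∀ i, (S i).card ≤ p) (hA : ∀ i j, j ∉ S i → A i j = 0) :
    SLP (Fintype.card I * p) A := by
  choose n c hnc using fun i => exists_listing (S i) p (hS i) (A i) (hA i)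
  have : A = fun i j => ∑ q, if n i q = j then c i q else 0 := by
    funext i j
    exact hnc i j
  rw [this]
  exact SLP.sparse p hp n c

end Pool.Agent.FJL
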