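import Pool.Agent.Helper55.FJL.SLP

set_option autoImplicit false

/-! FJL-10: the Walsh–Hadamard matrix. -/

namespace Pool.Agent.FJL

open Finset

namespace Had

noncomputable def h (a b : Bool) : ℝ := (if a && b then -1 else 1) / Real.sqrt 2

theorem h_sq (a b : Bool) : h a b ^ 2 = 1 / 2 := by
  have : Real.sqrt 2 ^ 2 = 2 := Real.sq_sqrt (by norm_num)
  unfold h
  split_ifs <;> rw [div_pow, this] <;> norm_num

theorem h_symm (a b : Bool) : h a b = h b a := by
  unfold h; rw [Bool.and_comm]

theorem h_mul (a b : Bool) : ∑ c, h a c * h c b = if a = b then 1 else 0 := by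
  have h2 : Real.sqrt 2 * Real.sqrt 2 = 2 := Real.mul_self_sqrt (by norm_num)
  have h3 : Real.sqrt 2 ≠ 0 := by positivity
  cases a <;> cases b <;> simp only [h, Fintype.univ_bool, Finset.mem_singleton,
    Bool.true_eq_false, not_false_eq_true, Finset.sum_insert, Finset.sum_singleton,
    Bool.and_true, Bool.and_false, if_true, Bool.false_eq_true, if_false] <;> field_simp <;>
    simp [sq, h2] <;> norm_num

/-- partial transforms -/
noncomputable def P {r : ℕ} (T : Finset (Fin r)) (i j : Fin r → Bool) : ℝ :=
  ∏ s, if s ∈ T then h (i s) (j s) else if i s = j s then 1 else 0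

theorem P_empty {r : ℕ} (i j : Fin r → Bool) : P ∅ i j = if i = j then 1 else 0 := by
  unfold P
  by_cases hij : i = j
  · subst hij; simp
  · simp only [Finset.notMem_empty, if_false, hij]
    obtain ⟨s, hs⟩ : ∃ s, i s ≠ j s := by
      by_contra hcon
      push Not at hcon
      exact hij (funext hcon)
    exact Finset.prod_eq_zero (Finset.mem_univ s) (by simp [hs])

theorem P_insert {r : ℕ} (t : Fin r) (T : Finset (Fin r)) (ht : t ∉ T) (i j : Fin r → Bool) :
    P (insert t T) i j = h (i t) (i t) * P T i j +
      h (i t) (!(i t)) * P T (Function.update i t (!(i t))) j := by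
  unfold P
  rw [← Finset.mul_prod_erase Finset.univ _ (Finset.mem_univ t),
    ← Finset.mul_prod_erase Finset.univ (fun s => if s ∈ T then h (i s) (j s) else
      if i s = j s then 1 else 0) (Finset.mem_univ t),
    ← Finset.mul_prod_erase Finset.univ (fun s => if s ∈ T then
      h (Function.update i t (!(i t)) s) (j s) else
      if Function.update i t (!(i t)) s = j s then 1 else 0) (Finset.mem_univ t)]
  have h1 : ∀ s ∈ Finset.univ.erase t, (if s ∈ insert t T then h (i s) (j s) else
      if i s = j s then (1 : ℝ) else 0) = (if s ∈ T then h (i s) (j s) else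
      if i s = j s then 1 else 0) := by
    intro s hs
    have : s ≠ t := Finset.ne_of_mem_erase hs
    simp [Finset.mem_insert, this]
  have h2 : ∀ s ∈ Finset.univ.erase t, (if s ∈ T then
      h (Function.update i t (!(i t)) s) (j s) else
      if Function.update i t (!(i t)) s = j s then (1 : ℝ) else 0) =
      (if s ∈ T then h (i s) (j s) else if i s = j s then 1 else 0) := by
    intro s hs
    have : s ≠ t := Finset.ne_of_mem_erase hs
    simp [Function.update_of_ne this]
  rw [Finset.prod_congr rfl h1, Finset.prod_congr rfl h2]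
  simp only [Finset.mem_insert_self, if_true, ht, if_false, Function.update_self]
  cases hi : i t <;> cases hj : j t <;> simp

theorem P_slp {r : ℕ} (T : Finset (Fin r)) : SLP (T.card * (2 ^ r * 2)) (P T) := by
  classical
  induction T using Finset.induction_on with
  | empty =>
    refine ⟨fun _ => 0, fun _ => 0, fun _ => Sum.inr 0, fun _ => Sum.inr 0,
      fun i => Sum.inl i, ?_, ?_, ?_⟩
    · intro s hs
      simp at hs
    · intro i n hn
      simp at hn
    · intro x
      refine ⟨fun _ => 0, ?_, ?_⟩
      · intro s hs; simp at hs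
      · intro i
        simp [P_empty]
  | insert t T ht ih =>
    rw [Finset.card_insert_of_notMem ht]
    have h1 := SLP.sparse (I := Fin r → Bool) (J := Fin r → Bool) 2 (by norm_num)
      (fun i => ![i, Function.update i t (!(i t))])
      (fun i => ![h (i t) (i t), h (i t) (!(i t))])
    have h2 := SLP.comp ih h1
    have h3 : Fintype.card (Fin r → Bool) = 2 ^ r := by simp
    have h4 : (T.card + 1) * (2 ^ r * 2) =
        T.card * (2 ^ r * 2) + Fintype.card (Fin r → Bool) * 2 := by
      rw [h3]; ring
    rw [h4]
    have h5 : (fun (k j : Fin r → Bool) => ∑ i, (∑ q : Fin 2,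
        if (![k, Function.update k t (!(k t))] : Fin 2 → (Fin r → Bool)) q = i then
          (![h (k t) (k t), h (k t) (!(k t))] : Fin 2 → ℝ) q else 0) * P T i j) =
        P (insert t T) := by
      funext i j
      rw [P_insert t T ht]
      simp [Fin.sum_univ_two, add_mul, Finset.sum_add_distrib, ite_mul]
    rw [← h5]
    exact h2

end Had

open Had in
theorem exists_hadamard (r : ℕ) : ∃ H : (Fin r → Bool) → (Fin r → Bool) → ℝ,
    (∀ i j, H i j ^ 2 = 1 / (2 : ℝ) ^ r) ∧ (∀ i j, H i j = H j i) ∧
    (∀ x : (Fin r → Bool) → ℝ, ∑ i, (∑ j, H i j * x j) ^ 2 = ∑ j, x j ^ 2) ∧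
    (∀ i j, ∑ l, H i l * H l j = if i = j then 1 else 0) ∧
    SLP (2 * r * 2 ^ r) H := by
  classical
  have hsymm : ∀ i j : Fin r → Bool, P Finset.univ i j = P Finset.univ j i := by
    intro i j
    unfold P
    refine Finset.prod_congr rfl fun s _ => ?_
    simp [h_symm (i s) (j s)]
  have hmul : ∀ i j : Fin r → Bool, ∑ l, P Finset.univ i l * P Finset.univ l j =
      if i = j then 1 else 0 := by
    intro i j
    have h1 : ∀ l : Fin r → Bool, P Finset.univ i l * P Finset.univ l j =
        ∏ s, (h (i s) (l s) * h (l s) (j s)) := by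
      intro l
      unfold P
      rw [← Finset.prod_mul_distrib]
      simp
    rw [Finset.sum_congr rfl fun l _ => h1 l]
    have h2 := Finset.prod_univ_sum (ι := Fin r) (κ := fun _ => Bool) (R := ℝ)
      (fun _ => Finset.univ) (fun s b => h (i s) b * h b (j s))
    rw [Fintype.piFinset_univ] at h2
    rw [← h2]
    simp only [h_mul]
    by_cases hij : i = j
    · subst hij; simp
    · obtain ⟨s, hs⟩ : ∃ s, i s ≠ j s := by
        by_contra hcon
        push Not at hcon
        exact hij (funext hcon)
      rw [if_neg hij]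
      exact Finset.prod_eq_zero (Finset.mem_univ s) (by simp [hs])
  refine ⟨P Finset.univ, ?_, hsymm, ?_, hmul, ?_⟩
  · intro i j
    unfold P
    rw [← Finset.prod_pow]
    simp [h_sq]
  · intro x
    have h1 : ∀ i, (∑ j, P Finset.univ i j * x j) ^ 2 =
        ∑ j, ∑ k, x j * x k * (P Finset.univ j i * P Finset.univ i k) := by
      intro i
      rw [sq, Finset.sum_mul_sum]
      refine Finset.sum_congr rfl fun j _ => Finset.sum_congr rfl fun k _ => ?_
      rw [hsymm j i]; ring
    rw [Finset.sum_congr rfl fun i _ => h1 i, Finset.sum_comm]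
    refine Finset.sum_congr rfl fun j _ => ?_
    rw [Finset.sum_comm]
    have h2 : ∀ k, ∑ i, x j * x k * (P Finset.univ j i * P Finset.univ i k) =
        x j * x k * (if j = k then 1 else 0) := by
      intro k
      rw [← Finset.mul_sum, hmul]
    rw [Finset.sum_congr rfl fun k _ => h2 k]
    simp [sq]
  · have h1 := P_slp (r := r) Finset.univ
    have h2 : (Finset.univ : Finset (Fin r)).card * (2 ^ r * 2) = 2 * r * 2 ^ r := by
      rw [Finset.card_univ, Fintype.card_fin]; ring
    rw [h2] at h1
    exact h1

end Pool.Agent.FJL
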